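import Pool.Agent.BEW.StmtsA

/-!
# Row TPA of squad BEW: trigonometric approximation
-/

set_option autoImplicit false

namespace Pool.Agent.BEW.H10

open Set

noncomputable section

/-- Real trigonometric polynomials. -/
def RepT (h : ℝ → ℝ) : Prop := ∃ (J : ℕ) (a c : ℕ → ℝ), ∀ θ,
  h θ = ∑ j ∈ Finset.range (J + 1), (a j * Real.cos (j * θ) + c j * Real.sin (j * θ))

theorem rep_lift {h : ℝ → ℝ} {J : ℕ} {a c : ℕ → ℝ}
    (hh : ∀ θ, h θ = ∑ j ∈ Finset.range (J + 1), (a j * Real.cos (j * θ) + c j * Real.sin (j * θ)))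
    {J' : ℕ} (hJ : J ≤ J') : ∃ a' c' : ℕ → ℝ, ∀ θ,
      h θ = ∑ j ∈ Finset.range (J' + 1), (a' j * Real.cos (j * θ) + c' j * Real.sin (j * θ)) := by
  refine ⟨fun j => if j < J + 1 then a j else 0, fun j => if j < J + 1 then c j else 0, ?_⟩
  intro θ
  have hsub : Finset.range (J + 1) ⊆ Finset.range (J' + 1) := by
    intro x hx
    rw [Finset.mem_range] at hx ⊢
    omega
  rw [hh θ]
  have h1 : ∑ j ∈ Finset.range (J + 1), (a j * Real.cos (j * θ) + c j * Real.sin (j * θ)) =
      ∑ j ∈ Finset.range (J + 1), ((if j < J + 1 then a j else 0) * Real.cos (j * θ) +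
        (if j < J + 1 then c j else 0) * Real.sin (j * θ)) := by
    refine Finset.sum_congr rfl fun j hj => ?_
    rw [Finset.mem_range] at hj
    rw [if_pos hj, if_pos hj]
  rw [h1]
  refine Finset.sum_subset hsub fun j _ hj => ?_
  rw [Finset.mem_range] at hj
  rw [if_neg hj, if_neg hj]
  ring

theorem rep_add {h h' : ℝ → ℝ} (H : RepT h) (H' : RepT h') : RepT fun θ => h θ + h' θ := by
  obtain ⟨J, a, c, hh⟩ := H
  obtain ⟨J', a', c', hh'⟩ := H'
  obtain ⟨a1, c1, h1⟩ := rep_lift hh (le_max_left J J')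
  obtain ⟨a2, c2, h2⟩ := rep_lift hh' (le_max_right J J')
  refine ⟨max J J', fun j => a1 j + a2 j, fun j => c1 j + c2 j, fun θ => ?_⟩
  beta_reduce
  rw [h1 θ, h2 θ, ← Finset.sum_add_distrib]
  refine Finset.sum_congr rfl fun j _ => ?_
  ring

theorem rep_mul {h : ℝ → ℝ} (r : ℝ) (H : RepT h) : RepT fun θ => r * h θ := by
  obtain ⟨J, a, c, hh⟩ := H
  refine ⟨J, fun j => r * a j, fun j => r * c j, fun θ => ?_⟩
  beta_reduce
  rw [hh θ, Finset.mul_sum]
  refine Finset.sum_congr rfl fun j _ => ?_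
  ring

theorem rep_zero : RepT fun _ => 0 := by
  refine ⟨0, fun _ => 0, fun _ => 0, fun θ => ?_⟩
  simp

theorem cast_pos {n : ℤ} (h : n = (n.natAbs : ℤ)) : (n : ℝ) = (n.natAbs : ℝ) := by
  have h2 : (n : ℝ) = ((n.natAbs : ℤ) : ℝ) := congrArg (fun m : ℤ => (m : ℝ)) h
  rwa [Int.cast_natCast] at h2

theorem cast_neg {n : ℤ} (h : n = -(n.natAbs : ℤ)) : (n : ℝ) = -(n.natAbs : ℝ) := by
  have h2 : (n : ℝ) = ((-(n.natAbs : ℤ) : ℤ) : ℝ) := congrArg (fun m : ℤ => (m : ℝ)) h
  rwa [Int.cast_neg, Int.cast_natCast] at h2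

theorem rep_cos (n : ℤ) : RepT fun θ => Real.cos (n * θ) := by
  refine ⟨n.natAbs, fun j => if j = n.natAbs then 1 else 0, fun _ => 0, fun θ => ?_⟩
  rw [Finset.sum_eq_single n.natAbs]
  · beta_reduce
    rw [if_pos rfl]
    rcases Int.natAbs_eq n with h | h
    · rw [cast_pos h]
      simp
    · rw [cast_neg h, neg_mul, Real.cos_neg]
      simp
  · intro j _ hj
    beta_reduce
    rw [if_neg hj]
    ring
  · intro h
    exact absurd (Finset.mem_range.mpr (Nat.lt_succ_self _)) h

theorem rep_sin (n : ℤ) : RepT fun θ => Real.sin (n * θ) := by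
  rcases Int.natAbs_eq n with h | h
  · refine ⟨n.natAbs, fun _ => 0, fun j => if j = n.natAbs then 1 else 0, fun θ => ?_⟩
    rw [Finset.sum_eq_single n.natAbs]
    · beta_reduce
      rw [if_pos rfl, cast_pos h]
      simp
    · intro j _ hj
      beta_reduce
      rw [if_neg hj]
      ring
    · intro h
      exact absurd (Finset.mem_range.mpr (Nat.lt_succ_self _)) h
  · refine ⟨n.natAbs, fun _ => 0, fun j => if j = n.natAbs then -1 else 0, fun θ => ?_⟩
    rw [Finset.sum_eq_single n.natAbs]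
    · beta_reduce
      rw [if_pos rfl, cast_neg h, neg_mul, Real.sin_neg]
      simp
    · intro j _ hj
      beta_reduce
      rw [if_neg hj]
      ring
    · intro h
      exact absurd (Finset.mem_range.mpr (Nat.lt_succ_self _)) h

theorem fourier_eq (n : ℤ) (θ : ℝ) :
    fourier n (θ : AddCircle (2 * Real.pi)) = Complex.exp (((n * θ : ℝ) : ℂ) * Complex.I) := by
  rw [fourier_coe_apply]
  congr 1
  have hpi : (Real.pi : ℂ) ≠ 0 := by exact_mod_cast Real.pi_ne_zero
  push_cast
  field_simp

/-- Row TPA. -/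
theorem tpa : TpaStmt := by
  intro f ε hf hε
  haveI : Fact (0 < 2 * Real.pi) := ⟨by positivity⟩
  have hper : Function.Periodic f (2 * Real.pi) := hf.2
  let F : C(AddCircle (2 * Real.pi), ℂ) :=
    ⟨fun x => ((hper.lift x : ℝ) : ℂ), by
      refine Complex.continuous_ofReal.comp ?_
      exact continuous_coinduced_dom.mpr hf.1⟩
  have hF : ∀ θ : ℝ, F (θ : AddCircle (2 * Real.pi)) = (f θ : ℂ) := by
    intro θ
    show ((hper.lift (θ : AddCircle (2 * Real.pi)) : ℝ) : ℂ) = (f θ : ℂ)
    rw [Function.Periodic.lift_coe]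
  have hmem : F ∈ (Submodule.span ℂ (Set.range (@fourier (2 * Real.pi)))).topologicalClosure := by
    rw [span_fourier_closure_eq_top]
    trivial
  have hmem2 : F ∈ closure (Submodule.span ℂ (Set.range (@fourier (2 * Real.pi))) :
      Set C(AddCircle (2 * Real.pi), ℂ)) := hmem
  obtain ⟨g, hg, hgF⟩ := Metric.mem_closure_iff.1 hmem2 ε hε
  have key : ∀ g ∈ Submodule.span ℂ (Set.range (@fourier (2 * Real.pi))),
      (RepT fun θ : ℝ => (g (θ : AddCircle (2 * Real.pi))).re) ∧
      (RepT fun θ : ℝ => (g (θ : AddCircle (2 * Real.pi))).im) := by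
    intro g hg
    induction hg using Submodule.span_induction with
    | mem x hx =>
      obtain ⟨n, rfl⟩ := hx
      constructor
      · have h1 : (fun θ : ℝ => (fourier n (θ : AddCircle (2 * Real.pi))).re) =
            fun θ => Real.cos (n * θ) := by
          funext θ
          rw [fourier_eq, Complex.exp_ofReal_mul_I_re]
        rw [h1]
        exact rep_cos n
      · have h1 : (fun θ : ℝ => (fourier n (θ : AddCircle (2 * Real.pi))).im) =
            fun θ => Real.sin (n * θ) := by
          funext θ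
          rw [fourier_eq, Complex.exp_ofReal_mul_I_im]
        rw [h1]
        exact rep_sin n
    | zero =>
      constructor
      · exact rep_zero
      · exact rep_zero
    | add x y _ _ hx hy =>
      constructor
      · exact rep_add hx.1 hy.1
      · exact rep_add hx.2 hy.2
    | smul r x _ hx =>
      constructor
      · have h1 : (fun θ : ℝ => ((r • x) (θ : AddCircle (2 * Real.pi))).re) =
            fun θ : ℝ => r.re * (x (θ : AddCircle (2 * Real.pi))).re +
              (-r.im) * (x (θ : AddCircle (2 * Real.pi))).im := by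
          funext θ
          rw [ContinuousMap.smul_apply, smul_eq_mul, Complex.mul_re]
          ring
        rw [h1]
        exact rep_add (rep_mul _ hx.1) (rep_mul _ hx.2)
      · have h1 : (fun θ : ℝ => ((r • x) (θ : AddCircle (2 * Real.pi))).im) =
            fun θ : ℝ => r.re * (x (θ : AddCircle (2 * Real.pi))).im +
              r.im * (x (θ : AddCircle (2 * Real.pi))).re := by
          funext θ
          rw [ContinuousMap.smul_apply, smul_eq_mul, Complex.mul_im]
        rw [h1]
        exact rep_add (rep_mul _ hx.2) (rep_mul _ hx.1)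
  obtain ⟨J, a, c, hJ⟩ := (key g hg).1
  refine ⟨J, a, c, fun θ => ?_⟩
  rw [← hJ θ]
  have h1 : dist (F (θ : AddCircle (2 * Real.pi))) (g (θ : AddCircle (2 * Real.pi))) ≤ dist F g :=
    ContinuousMap.dist_apply_le_dist _
  rw [Complex.dist_eq, hF] at h1
  have h2 := Complex.abs_re_le_norm ((f θ : ℂ) - g (θ : AddCircle (2 * Real.pi)))
  rw [Complex.sub_re, Complex.ofReal_re] at h2
  linarith

end

end Pool.Agent.BEW.H10
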